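import Pool.Agent.R498.MP.ULin

set_option autoImplicit false

/-!
# Strings of consecutive primes `p` with almost prime `a_i p + b_i`, uniformly in the forms
-/

namespace Pool.Agent.Results.MP_746f10_nt.PrimeStrings

open Filter

/-- `n` has at most `r` prime factors, counted with multiplicity, all of them at least `w`. -/
def AlmostPrime (r : ℕ) (w : ℝ) (n : ℕ) : Prop :=
  n.primeFactorsList.length ≤ r ∧ ∀ q : ℕ, q.Prime → q ∣ n → w ≤ q

/-- The primes in the interval `[x, x + C]` are exactly the numbers `x + s`, `s ∈ H`. -/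
def PrimePattern (C : ℕ) (H : Finset ℕ) (x : ℕ) : Prop := ∀ y ≤ C, (x + y).Prime ↔ y ∈ H

/-- The forms `a_i x + b_i` with `1 ≤ b_i < a_i`, together with the form `x`, have no fixed prime divisor. -/
def Admissible {k : ℕ} (a b : Fin k → ℕ) : Prop :=
  (∀ i, 1 ≤ b i ∧ b i < a i) ∧ ∀ p : ℕ, p.Prime → ∃ n : ℕ, ¬ p ∣ n * ∏ i, (a i * n + b i)

/-- **Strings of consecutive primes `p` with almost prime `a_i p + b_i`, uniformly in the forms.** Let `q`
be squarefree. For all `k` and `m` there are `K`, `B` and `δ > 0` such that for every `A` there is an `r` such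
that, for every finite set `S` of at least `K` nonnegative integers, the following holds for all large
`N`, all admissible `a_i`, `b_i` (`i = 1, ..., k`) with all `a_i ≤ N ^ A`, and all `c` for which
`c ∏ (a_i c + b_i)` is coprime to `q` (for instance `q = 1`). There are a subset `H` of `S` with at least `m`
elements and at least `N / (log N) ^ B` numbers `x` with `N < x ≤ x + max S ≤ 2 N` such that the primes in
`[x, x + max S]` are exactly the numbers `x + s`, `s ∈ H`, all these primes `p` are `≡ c` modulo `q`, and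
all `a_i p + b_i` have at most `r` prime factors, all of them at least `N ^ δ`. -/
theorem result (k q : ℕ) (hq : Squarefree q) (m : ℕ) : ∃ (K B : ℕ) (δ : ℝ), 0 < δ ∧
    ∀ A : ℕ, ∃ r : ℕ, ∀ S : Finset ℕ, K ≤ S.card → ∀ᶠ N : ℕ in atTop, ∀ a b : Fin k → ℕ,
      Admissible a b → (∀ i, a i ≤ N ^ A) → ∀ c : ℕ, Nat.Coprime (c * ∏ i, (a i * c + b i)) q →
      ∃ H ⊆ S, m ≤ H.card ∧ ∃ T : Finset ℕ, (N : ℝ) ≤ Real.log N ^ B * T.card ∧
        ∀ x ∈ T, N < x ∧ x + S.sup id ≤ 2 * N ∧ PrimePattern (S.sup id) H x ∧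
          ∀ s ∈ H, x + s ≡ c [MOD q] ∧
            ∀ i, AlmostPrime r ((N : ℝ) ^ δ) (a i * (x + s) + b i) := by
  obtain ⟨K, B, δ, hδ, hmain⟩ := Pool.Agent.R498.MP.natlinU k q hq m
  refine ⟨K, B, δ, hδ, fun A => ?_⟩
  obtain ⟨r, hr⟩ := hmain A
  refine ⟨r, fun S hS => ?_⟩
  filter_upwards [hr S hS] with N hN
  intro a b hab haA c hc
  obtain ⟨H, hH, hHm, T, hT, hmem⟩ := hN a b (fun i => ⟨haA i, (hab.1 i).2.le.trans (haA i)⟩)
    hab.2 c hc
  refine ⟨H, hH, hHm, T, hT, fun x hx => ?_⟩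
  obtain ⟨g1, g2, g3, g4⟩ := hmem x hx
  refine ⟨g1, g2, fun y hy => ⟨fun hp => ?_, fun hyH => (g3 y hyH).1⟩, fun s hs => (g3 s hs).2⟩
  by_contra hcon
  refine g4 y hy hcon (fun s _ _ i h0 => ?_) hp
  have h1 := (hab.1 i).1
  have h2 := (hab.1 i).2
  have h3 : a i ∣ b i := (Nat.dvd_add_right (dvd_mul_right (a i) s)).1 (h0 ▸ dvd_mul_right _ _)
  have h4 := Nat.le_of_dvd (by omega) h3
  omega

end Pool.Agent.Results.MP_746f10_nt.PrimeStrings
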