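import Pool.Agent.R490.Uk

set_option autoImplicit false

/-!
# Uniform prime k-tuplets: regular points of arbitrary sets of prime or almost prime tuplets
-/

namespace Pool.Agent.Results.MP_746f10_nt.RegularPoints

open Finset Filter

/-- The set `H` of linear forms `a x + b`, written as pairs `(a, b)`, is admissible in the sense of the
problem. -/
def Admissible (H : Finset (ℕ × ℕ)) : Prop :=
  (∀ f ∈ H, 1 ≤ f.2 ∧ f.2 < f.1) ∧ ∀ p : ℕ, p.Prime → ∃ n : ℤ, ∀ f ∈ H, ¬ (p : ℤ) ∣ (f.1 : ℤ) * n + f.2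

/-- No value `a n + b`, `(a, b) ∈ H`, has a prime factor `≤ y`. -/
def Rough (H : Finset (ℕ × ℕ)) (y n : ℕ) : Prop := ∀ p : ℕ, p.Prime → p ≤ y → ∀ f ∈ H, ¬ p ∣ f.1 * n + f.2

open Classical in
/-- The density of these `n`: the product of `1 - w(p) / p` over the primes `p ≤ y`, where `w(p)` is the
number of the residues `n` modulo `p` for which `p` divides a value `a n + b`, `(a, b) ∈ H`. -/
noncomputable def V (H : Finset (ℕ × ℕ)) (y : ℕ) : ℝ := ∏ p ∈ (Finset.range (y + 1)).filter Nat.Prime,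
    (1 - (((Finset.range p).filter (fun n : ℕ => ∃ f ∈ H, p ∣ f.1 * n + f.2)).card : ℝ) / p)

open Classical in
/-- The number of elements of `S` in `(a, b]`. -/
noncomputable def count (S : Set ℕ) (a b : ℕ) : ℕ := ((Finset.Ioc a b).filter (fun m => m ∈ S)).card

/-- All intervals `(m - s, m + t]` with `s, t ≤ Y` of length at least `L / κ` contain between
`κ (s + t) / L` and `(s + t) / (κ L)` elements of `S`. -/
def RightOrder (S : Set ℕ) (L κ : ℝ) (Y m : ℕ) : Prop :=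
  ∀ s t : ℕ, s ≤ Y → t ≤ Y → L ≤ κ * (s + t) →
    κ * (s + t) / L ≤ count S (m - s) (m + t) ∧ (count S (m - s) (m + t) : ℝ) ≤ (s + t) / (κ * L)

/-- Up to `δ`, `S` has a constant density on both sides of `m` up to the distance `2 ^ j`. -/
def ConstantDensity (S : Set ℕ) (L κ δ : ℝ) (m j : ℕ) : Prop :=
  ∃ lam : ℝ, κ ≤ lam ∧ lam ≤ 1 / κ ∧ ∀ s t : ℕ, s ≤ 2 ^ j → t ≤ 2 ^ j →
    |(count S (m - s) (m + t) : ℝ) - lam * (s + t) / L| ≤ δ * 2 ^ j / L

open Classical in
/-- The number of the scales `L ≤ 2 ^ j ≤ Y` without this property. -/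
noncomputable def badScales (S : Set ℕ) (L κ δ : ℝ) (Y m : ℕ) : ℕ :=
  ((Finset.range (Nat.log 2 Y + 1)).filter (fun j => L ≤ (2 : ℝ) ^ j ∧ ¬ ConstantDensity S L κ δ m j)).card

/-- The elements of `S` that are not regular points of `S`. -/
def Irregular (S : Set ℕ) (L κ δ : ℝ) (M Y : ℕ) : Set ℕ :=
  {m | m ∈ S ∧ ¬ (RightOrder S L κ Y m ∧ badScales S L κ δ Y m ≤ M)}

open Classical in
/-- **Regular points, uniformly.** Let `k ≥ 2`, `A` and `θ > 0`. There is `r0` such that for `r ≥ r0` and `ε > 0`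
there is `κ > 0`, and for `δ > 0` there is `M`, such that for all large `X`, with `y = X ^ (1 / r)`, ALL
admissible sets `H` of `k` linear forms with leading coefficients up to `X ^ A`, all intervals `(u, u + Y]` with
`X ^ θ ≤ Y ≤ X`, `Y ≤ u`, and EVERY set `S` of integers `n` at which no form has a prime factor `≤ y`, for
instance the set of all `n` at which all forms are primes `> y`: all but at most `ε Y V` of the elements of `S`
in `(u, u + Y]` are regular points of `S`: all intervals around them of length at least `1 / (κ V)` and at most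
`Y` to each side contain the right order of elements of `S`, and `S` has a constant density up to `δ` around them
at all but `M` dyadic scales. -/
theorem result (k A : ℕ) (hk : 2 ≤ k) (θ : ℝ) (hθ : 0 < θ) :
    ∃ r0 : ℕ, 2 ≤ r0 ∧ ∀ r : ℕ, r0 ≤ r → ∀ ε : ℝ, 0 < ε → ∃ κ : ℝ, 0 < κ ∧
      ∀ δ : ℝ, 0 < δ → ∃ M : ℕ, ∀ᶠ X : ℕ in atTop, ∀ y : ℕ, y = ⌊(X : ℝ) ^ (1 / (r : ℝ))⌋₊ →
      ∀ H : Finset (ℕ × ℕ), H.card = k → Admissible H → (∀ f ∈ H, f.1 ≤ X ^ A) →
      ∀ u Y : ℕ, (X : ℝ) ^ θ ≤ Y → Y ≤ X → Y ≤ u → ∀ S : Set ℕ, (∀ n ∈ S, Rough H y n) →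
        (count (Irregular S (1 / V H y) κ δ M Y) u (u + Y) : ℝ) ≤ ε * (Y * V H y) := by
  obtain ⟨r0, hr0, h0⟩ := Pool.Agent.R490.Li.regL k A hk θ hθ
  refine ⟨r0, hr0, fun r hr ε hε => ?_⟩
  obtain ⟨κ, hκ, h1⟩ := h0 r hr ε hε
  refine ⟨κ, hκ, fun δ hδ => ?_⟩
  obtain ⟨M, h2⟩ := h1 δ hδ
  refine ⟨M, ?_⟩
  filter_upwards [h2] with X hX
  intro y hy H hH hA hHX
  exact hX H hH (Pool.Agent.R490.Uk.good _ H hA hHX) y hy

end Pool.Agent.Results.MP_746f10_nt.RegularPoints
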