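import Pool.Agent.R490.Uk

set_option autoImplicit false

/-!
# Uniform almost prime k-tuplets: the law of the spacings in intervals of length `max a_i ^ θ`, any `θ > 0`
-/

namespace Pool.Agent.Results.MP_746f10_nt.SpacingLaw

open Finset Filter

/-- The set `H` of linear forms `a x + b`, written as pairs `(a, b)`, is admissible in the sense of the
problem. -/
def Admissible (H : Finset (ℕ × ℕ)) : Prop :=
  (∀ f ∈ H, 1 ≤ f.2 ∧ f.2 < f.1) ∧ ∀ p : ℕ, p.Prime → ∃ n : ℤ, ∀ f ∈ H, ¬ (p : ℤ) ∣ (f.1 : ℤ) * n + f.2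

/-- No value `a n + b`, `(a, b) ∈ H`, has a prime factor `≤ y`. -/
def Rough (H : Finset (ℕ × ℕ)) (y n : ℕ) : Prop := ∀ p : ℕ, p.Prime → p ≤ y → ∀ f ∈ H, ¬ p ∣ f.1 * n + f.2

open Classical in
/-- The density of these `n`: the product of `1 - w(p) / p` over the primes `p ≤ y`, where `w(p)` is the
number of the residues `n` modulo `p` for which `p` divides a value `a n + b`, `(a, b) ∈ H`. -/
noncomputable def V (H : Finset (ℕ × ℕ)) (y : ℕ) : ℝ := ∏ p ∈ (Finset.range (y + 1)).filter Nat.Prime,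
    (1 - (((Finset.range p).filter (fun n : ℕ => ∃ f ∈ H, p ∣ f.1 * n + f.2)).card : ℝ) / p)

open Classical in
/-- The number of the `n` in `(u, u + Y]` with `Rough H y n` for which fewer than `j` of the `T` integers
before `n` have this property, that is, for which the distance from `n` to the `j`-th preceding such integer is
larger than `T`. -/
noncomputable def D (H : Finset (ℕ × ℕ)) (y j T u Y : ℕ) : ℕ :=
  ((Ioc u (u + Y)).filter (fun n => Rough H y n ∧ ((Ico (n - T) n).filter (fun m => Rough H y m)).card < j)).card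

open Classical in
/-- **The law of the spacings, uniformly.** Let `k ≥ 2` and `θ > 0` (as small as one likes). For all `j0`, `x0` and
`ε > 0` there is `r0` such that for every `r ≥ r0`, all large `X`, with `y = X ^ (1 / r)`: for ALL admissible sets
of `k` linear forms `a_i x + b_i` with `a_i ≤ X` (for instance `X` the maximum or the product of the `a_i`) and
ALL intervals `(u, u + Y]` with `Y ≥ X ^ θ`, for instance `(0, X ^ θ]`: the `n` in this interval for which no
value `a_i n + b_i` has a prime factor `≤ y` number `Y V (1 + O(ε))`, and their distances to the `j`-th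
preceding one have, in units `1 / V` and up to `ε`, the distribution which belongs to a Poisson process. -/
theorem result (k : ℕ) (hk : 2 ≤ k) (θ : ℝ) (hθ : 0 < θ) (j0 : ℕ) (x0 ε : ℝ) (hε : 0 < ε) :
    ∃ r0 : ℕ, ∀ r : ℕ, r0 ≤ r → ∀ᶠ X : ℕ in atTop, ∀ y : ℕ, y = ⌊(X : ℝ) ^ (1 / (r : ℝ))⌋₊ →
      ∀ H : Finset (ℕ × ℕ), H.card = k → Admissible H → (∀ f ∈ H, f.1 ≤ X) →
      ∀ u Y : ℕ, (X : ℝ) ^ θ ≤ Y → ∀ j T : ℕ, (j ≤ j0 ∨ T * V H y ≤ x0) →
        |(D H y j T u Y : ℝ) - Y * V H y *
            ∑ i ∈ range j, Real.exp (-(T * V H y)) * (T * V H y) ^ i / i.factorial| ≤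
          ε * (Y * V H y) := by
  obtain ⟨r0, h0⟩ := Pool.Agent.R490.Li.gapL k 1 hk θ hθ j0 x0 ε hε
  refine ⟨r0, fun r hr => ?_⟩
  filter_upwards [h0 r hr] with X hX
  intro y hy H hH hA hHX
  exact hX H hH (by rw [pow_one]; exact Pool.Agent.R490.Uk.good X H hA hHX) (Pool.Agent.R490.Uk.noT H hA) y hy

end Pool.Agent.Results.MP_746f10_nt.SpacingLaw
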