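import Mathlib
import Pool.Agent.R960.Fam.Lin

set_option autoImplicit false

/-!
# The uniform k-tuplets conjecture in random models of the primes

The integers are decided one after the other; no independence is assumed.  Fix a finite set `Q` of
primes; multiples of the primes of `Q` are never chosen and the other integers `n + 1` are chosen with
conditional probability `(1 + o(1)) ∏_{p ∈ Q} (1 - 1/p)⁻¹ / log n`.  Almost surely, for every `k`, uniformly
in all systems `F` of `k` linear forms `a x + b` with `1 ≤ b < a ≤ x` and all `(log x)^(2 k + 2) ≤ N ≤ x`,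
the number of `n` in `(N, 2 N]` at which all forms take chosen values is
`(𝔖(F) + o(1)) N / ∏ log (a N)`.  Hence every system of `k` forms without local obstruction at the primes of
`Q` takes `k` chosen values at some `n ≤ γ_k (log (a_1 ⋯ a_k))^(2 k + 2)`.
-/

open MeasureTheory Filter
open scoped Topology

namespace Pool.Agent.Results.MP_746f10_nt.TupletsInSievedModels

/-- the conditional probability that `n + 1` is chosen, given the information up to `n` -/
noncomputable def density {Ω : Type} {mΩ : MeasurableSpace Ω} (μ : Measure Ω) (ℱ : Filtration ℕ mΩ)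
    (A : ℕ → Set Ω) (n : ℕ) : Ω → ℝ := μ[(A (n + 1)).indicator (fun _ => (1 : ℝ)) | ℱ n]

/-- systems of `k` different linear forms `a x + b` with `1 ≤ b < a`; a form is the pair `(a, b)` -/
def IsSystem (k : ℕ) (F : Finset (ℕ × ℕ)) : Prop := F.card = k ∧ ∀ f ∈ F, 1 ≤ f.2 ∧ f.2 < f.1

/-- the number of `n` with `y < n ≤ y + h` at which all forms of the system take values in `S` -/
noncomputable def hits (S : Set ℕ) (F : Finset (ℕ × ℕ)) (y h : ℕ) : ℕ :=
  {n : ℕ | (y < n ∧ n ≤ y + h) ∧ ∀ f ∈ F, f.1 * n + f.2 ∈ S}.ncard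

/-- the number of residues modulo `p` at which one of the forms is divisible by `p` -/
noncomputable def nu (F : Finset (ℕ × ℕ)) (p : ℕ) : ℕ := {r : ℕ | r < p ∧ ∃ f ∈ F, p ∣ f.1 * r + f.2}.ncard

/-- the factors of the primes of `Q` for the system `F` -/
noncomputable def factor (Q : Finset ℕ) (F : Finset (ℕ × ℕ)) : ℝ :=
  ∏ p ∈ Q, (1 - (nu F p : ℝ) / p) / (1 - 1 / (p : ℝ)) ^ F.card

end Pool.Agent.Results.MP_746f10_nt.TupletsInSievedModels

open Pool.Agent.Results.MP_746f10_nt.TupletsInSievedModels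

theorem Pool.Agent.Results.MP_746f10_nt.TupletsInSievedModels.result
    {Ω : Type} [mΩ : MeasurableSpace Ω] (μ : Measure Ω) [IsProbabilityMeasure μ]
    (ℱ : Filtration ℕ mΩ) (A : ℕ → Set Ω) (hA : ∀ n, MeasurableSet[ℱ n] (A n))
    (Q : Finset ℕ) (hQ : ∀ p ∈ Q, p.Prime) (hcop : ∀ n, (∃ p ∈ Q, p ∣ n) → A n = ∅)
    (hd : ∀ᵐ ω ∂μ, Tendsto (fun n : ℕ => density μ ℱ A n ω * Real.log n)
        (atTop ⊓ 𝓟 {n : ℕ | ∀ p ∈ Q, ¬ p ∣ n + 1}) (𝓝 (∏ p ∈ Q, (1 - 1 / (p : ℝ))⁻¹))) :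
    ∀ᵐ ω ∂μ, ∀ k : ℕ, 1 ≤ k →
      (∀ ε : ℝ, 0 < ε → ∀ᶠ x : ℕ in atTop, ∀ N : ℕ, N ≤ x → Real.log x ^ (2 * k + 2) ≤ N →
        ∀ F : Finset (ℕ × ℕ), IsSystem k F → (∀ f ∈ F, f.1 ≤ x) →
          |(hits {a | ω ∈ A a} F N N : ℝ) * (∏ f ∈ F, Real.log ((f.1 * N : ℕ) : ℝ)) / N - factor Q F| ≤ ε) ∧
      ∃ γ : ℝ, 0 < γ ∧ ∀ F : Finset (ℕ × ℕ), IsSystem k F → (∀ p ∈ Q, ∃ n : ℕ, ∀ f ∈ F, ¬ p ∣ f.1 * n + f.2) →
        ∃ n : ℕ, 1 ≤ n ∧ (n : ℝ) ≤ γ * Real.log ((∏ f ∈ F, f.1 : ℕ) : ℝ) ^ (2 * k + 2) ∧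
          ∀ f ∈ F, ω ∈ A (f.1 * n + f.2) := by
  classical
  rw [ae_all_iff]
  intro k
  by_cases hk1 : 1 ≤ k
  swap
  · exact Eventually.of_forall fun ω h => absurd h hk1
  set Φ : ℕ → Finset (Finset (ℕ × ℕ) × ℕ) := fun x =>
    ((((Finset.range (x + 1) ×ˢ Finset.range (x + 1)).powersetCard k) ×ˢ Finset.range (x + 1)).filter
      fun a : Finset (ℕ × ℕ) × ℕ => IsSystem k a.1 ∧ Real.log x ^ (2 * k + 2) ≤ a.2) with hΦ
  have hmem : ∀ x, ∀ a ∈ Φ x, IsSystem k a.1 ∧ Real.log x ^ (2 * k + 2) ≤ (a.2 : ℝ) ∧ a.2 ≤ x ∧ ∀ f ∈ a.1, f.1 ≤ x := by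
    intro x a ha
    obtain ⟨h1, h2, h3⟩ := Finset.mem_filter.1 ha
    obtain ⟨h4, h5⟩ := Finset.mem_product.1 h1
    refine ⟨h2, h3, by have := Finset.mem_range.1 h5; omega, fun f hf => ?_⟩
    have h6 := (Finset.mem_powersetCard.1 h4).1 hf
    have h7 := Finset.mem_range.1 (Finset.mem_product.1 h6).1
    omega
  have c1 : ∀ᶠ x : ℕ in atTop, (Φ x).card ≤ x ^ (2 * (2 * k + 1)) := by
    filter_upwards [eventually_ge_atTop 2] with x hx
    have h1 : (Φ x).card ≤ ((x + 1) * (x + 1)) ^ k * (x + 1) := by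
      refine (Finset.card_filter_le _ _).trans ?_
      rw [Finset.card_product, Finset.card_powersetCard, Finset.card_product, Finset.card_range]
      exact Nat.mul_le_mul_right _ (Nat.choose_le_pow _ _)
    refine h1.trans ?_
    have h2 : ((x + 1) * (x + 1)) ^ k * (x + 1) = (x + 1) ^ (2 * k + 1) := by
      rw [← sq, ← pow_mul, pow_succ]
    rw [h2, pow_mul]
    exact Nat.pow_le_pow_left (by nlinarith) _
  have tl := Real.tendsto_log_atTop.comp (tendsto_natCast_atTop_atTop (R := ℝ))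
  have tll : Tendsto (fun x : ℕ => Real.log (Real.log x)) atTop atTop := Real.tendsto_log_atTop.comp tl
  have t1 : ∀ᶠ x : ℕ in atTop, (1 : ℝ) ≤ Real.log x := tl.eventually_ge_atTop _
  have t2 : ∀ᶠ x : ℕ in atTop, (1 : ℝ) ≤ Real.log (Real.log x) := tll.eventually_ge_atTop _
  -- lower bound for the logarithms
  have hlow : ∀ x : ℕ, 1 ≤ Real.log x → ∀ a ∈ Φ x, Real.log x ≤ a.2 ∧ ∀ f ∈ a.1, Real.log (Real.log x) ≤ Real.log ((f.1 * a.2 : ℕ) : ℝ) := by
    intro x hx a ha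
    obtain ⟨h1, h2, h3, h4⟩ := hmem x a ha
    have h5 : Real.log x ≤ a.2 := (le_self_pow₀ hx (by omega)).trans h2
    refine ⟨h5, fun f hf => ?_⟩
    refine Real.log_le_log (by linarith) (h5.trans ?_)
    have h6 := (h1.2 f hf)
    exact_mod_cast Nat.le_mul_of_pos_left a.2 (by omega)
  have main := Pool.Agent.R960.Fam.lin_win (μ := μ) hA Q hQ hcop hd k (2 * (2 * k + 1)) Φ c1
    (fun a => a.1) (fun a => a.2) (fun a => a.2) (fun a => ∏ f ∈ a.1, Real.log ((f.1 * a.2 : ℕ) : ℝ))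
    (fun x => ⌊Real.log x⌋₊) (tendsto_nat_floor_atTop.comp tl)
    (by
      filter_upwards with x a ha
      obtain ⟨h1, h2, h3, h4⟩ := hmem x a ha
      exact ⟨h1.1, fun f hf => by have := h1.2 f hf; omega⟩)
    (by
      filter_upwards [t1] with x hx a ha
      have h5 := (hlow x hx a ha).1
      exact Nat.floor_le_of_le h5)
    (by
      intro η hη
      filter_upwards [t1, t2, tll.eventually (Pool.Agent.R960.Fam.near_ev (Real.log 3) k hη)] with x hx1 hx2 hx3 a ha i hi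
      obtain ⟨h1, h2, h3, h4⟩ := hmem x a ha
      obtain ⟨h5, h6⟩ := hlow x hx1 a ha
      obtain ⟨h7, h8⟩ := Finset.mem_Ioc.1 hi
      have hN : 1 ≤ a.2 := by
        have : (1 : ℝ) ≤ a.2 := hx1.trans h5
        exact_mod_cast this
      have h9 := Pool.Agent.R960.Fam.prod_near a.1 (fun f => Real.log ((f.1 * i + f.2 : ℕ) : ℝ))
        (fun f => Real.log ((f.1 * a.2 : ℕ) : ℝ)) (L := Real.log (Real.log x)) (c := Real.log 3) (by linarith)
        (Real.log_nonneg (by norm_num)) h6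
        (fun f hf => by
          have h10 := h1.2 f hf
          refine Real.log_le_log (by exact_mod_cast Nat.mul_pos (by omega) hN) ?_
          have : f.1 * a.2 ≤ f.1 * i := Nat.mul_le_mul_left _ (by omega)
          exact_mod_cast (by omega : f.1 * a.2 ≤ f.1 * i + f.2))
        (fun f hf => by
          have h10 := h1.2 f hf
          have h11 : 0 < f.1 * a.2 := Nat.mul_pos (by omega) hN
          have h12 : f.1 * i + f.2 ≤ 3 * (f.1 * a.2) := by
            have e1 : f.1 * i ≤ f.1 * (a.2 + a.2) := Nat.mul_le_mul_left _ h8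
            have e2 : f.1 ≤ f.1 * a.2 := Nat.le_mul_of_pos_right _ hN
            nlinarith
          have h13 : 0 < f.1 * i + f.2 := by omega
          rw [← Real.log_mul (by exact_mod_cast h11.ne') (by norm_num)]
          refine Real.log_le_log (by exact_mod_cast h13) ?_
          have h14 : ((f.1 * i + f.2 : ℕ) : ℝ) ≤ ((3 * (f.1 * a.2) : ℕ) : ℝ) := by exact_mod_cast h12
          push_cast at h14 ⊢
          linarith)
      rw [h1.1] at h9
      refine h9.trans (mul_le_mul_of_nonneg_right hx3 ?_)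
      exact Finset.prod_nonneg fun f hf => Real.log_natCast_nonneg _)
    (by
      filter_upwards [t1, t2] with x hx1 hx2 a ha
      obtain ⟨h5, h6⟩ := hlow x hx1 a ha
      have h7 := Finset.prod_le_prod (s := a.1) (f := fun _ => (1 : ℝ)) (g := fun f => Real.log ((f.1 * a.2 : ℕ) : ℝ))
        (fun _ _ => zero_le_one) (fun f hf => hx2.trans (h6 f hf))
      rw [Finset.prod_const_one] at h7
      exact h7)
    (by
      intro K hK
      filter_upwards [t1, tl.eventually_ge_atTop (K * 4 ^ k)] with x hx1 hx2 a ha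
      obtain ⟨h1, h2, h3, h4⟩ := hmem x a ha
      obtain ⟨h5, h6⟩ := hlow x hx1 a ha
      have hx2' : K * 4 ^ k ≤ Real.log x := hx2
      have hN : 1 ≤ a.2 := by
        have : (1 : ℝ) ≤ a.2 := hx1.trans h5
        exact_mod_cast this
      have hx0 : (0 : ℝ) < x := by
        have : (0 : ℕ) < x := by omega
        exact_mod_cast this
      have h7 : ∏ f ∈ a.1, Real.log ((f.1 * a.2 : ℕ) : ℝ) ≤ (2 * Real.log x) ^ k := by
        have h8 := Finset.prod_le_prod (s := a.1) (f := fun f => Real.log ((f.1 * a.2 : ℕ) : ℝ)) (g := fun _ => 2 * Real.log x)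
          (fun _ _ => Real.log_natCast_nonneg _) (fun f hf => by
            have h10 := h1.2 f hf
            have h11 : 0 < f.1 * a.2 := Nat.mul_pos (by omega) hN
            have h12 : f.1 * a.2 ≤ x * x := Nat.mul_le_mul (h4 f hf) h3
            have h13 : 2 * Real.log (x : ℝ) = Real.log (((x * x : ℕ)) : ℝ) := by
              push_cast
              rw [Real.log_mul hx0.ne' hx0.ne']
              ring
            rw [h13]
            exact Real.log_le_log (by exact_mod_cast h11) (by exact_mod_cast h12))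
        rw [Finset.prod_const, h1.1] at h8
        exact h8
      have h9 : 0 ≤ ∏ f ∈ a.1, Real.log ((f.1 * a.2 : ℕ) : ℝ) := Finset.prod_nonneg fun f hf => Real.log_natCast_nonneg _
      have h10 : (∏ f ∈ a.1, Real.log ((f.1 * a.2 : ℕ) : ℝ)) ^ 2 ≤ ((2 * Real.log x) ^ k) ^ 2 := pow_le_pow_left₀ h9 h7 2
      refine le_trans ?_ h2
      calc K * ((∏ f ∈ a.1, Real.log ((f.1 * a.2 : ℕ) : ℝ)) ^ 2 * Real.log x)
          ≤ K * (((2 * Real.log x) ^ k) ^ 2 * Real.log x) :=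
            mul_le_mul_of_nonneg_left (mul_le_mul_of_nonneg_right h10 (by linarith)) hK.le
        _ = (K * 4 ^ k) * Real.log x ^ (2 * k + 1) := by
            rw [mul_pow, mul_pow, ← pow_mul, ← pow_mul, mul_comm k 2, pow_mul 2 2 k]
            ring
        _ ≤ Real.log x * Real.log x ^ (2 * k + 1) := mul_le_mul_of_nonneg_right hx2' (by positivity)
        _ = Real.log x ^ (2 * k + 2) := by ring)
  filter_upwards [main] with ω hω _
  have L1 : ∀ ε : ℝ, 0 < ε → ∀ᶠ x : ℕ in atTop, ∀ N : ℕ, N ≤ x → Real.log x ^ (2 * k + 2) ≤ N →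
      ∀ F : Finset (ℕ × ℕ), IsSystem k F → (∀ f ∈ F, f.1 ≤ x) →
        |(hits {a | ω ∈ A a} F N N : ℝ) * (∏ f ∈ F, Real.log ((f.1 * N : ℕ) : ℝ)) / N - factor Q F| ≤ ε := by
    intro ε hε
    filter_upwards [hω ε hε] with x hx N hN1 hN2 F hF1 hF2
    refine hx (F, N) ?_
    simp only [hΦ, Finset.mem_filter, Finset.mem_product, Finset.mem_powersetCard, Finset.mem_range]
    refine ⟨⟨⟨fun f hf => ?_, hF1.1⟩, by omega⟩, hF1, hN2⟩
    have h1 := hF1.2 f hf
    have h2 := hF2 f hf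
    exact Finset.mem_product.2 ⟨Finset.mem_range.2 (by omega), Finset.mem_range.2 (by omega)⟩
  refine ⟨L1, ?_⟩
  -- existence
  set δ : ℝ := ∏ p ∈ Q, (1 / (p : ℝ)) with hδ
  have hδ0 : 0 < δ := Finset.prod_pos fun p hp => by
    have : (0 : ℝ) < p := by exact_mod_cast (hQ p hp).pos
    positivity
  have t3 : ∀ᶠ x : ℕ in atTop, Real.log x ^ (2 * k + 2) + 1 ≤ x := by
    have h0 : Tendsto (fun x : ℝ => Real.log x ^ ((2 * k + 2 : ℕ) : ℝ) / x ^ (1 : ℝ)) atTop (𝓝 0) :=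
      (isLittleO_log_rpow_rpow_atTop ((2 * k + 2 : ℕ) : ℝ) one_pos).tendsto_div_nhds_zero
    have h1 := h0.comp tendsto_natCast_atTop_atTop
    filter_upwards [h1.eventually_le_const (show (0 : ℝ) < 1 / 2 by norm_num), eventually_ge_atTop 2] with N hN hN4
    have hN0 : (2 : ℝ) ≤ N := by exact_mod_cast hN4
    simp only [Function.comp_apply, Real.rpow_one, Real.rpow_natCast] at hN
    rw [div_le_iff₀ (by linarith)] at hN
    linarith
  obtain ⟨x₀, hx₀⟩ := eventually_atTop.1 ((L1 (δ / 2) (by positivity)).and (t3.and t1))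
  have key : ∀ x, x₀ ≤ x → ∀ N : ℕ, N ≤ x → Real.log x ^ (2 * k + 2) ≤ N → ∀ F : Finset (ℕ × ℕ), IsSystem k F →
      (∀ f ∈ F, f.1 ≤ x) → (∀ p ∈ Q, ∃ n : ℕ, ∀ f ∈ F, ¬ p ∣ f.1 * n + f.2) →
      ∃ n : ℕ, 1 ≤ n ∧ n ≤ N + N ∧ ∀ f ∈ F, ω ∈ A (f.1 * n + f.2) := by
    intro x hx N hN1 hN2 F hF1 hF2 hF3
    have h1 := (hx₀ x hx).1 N hN1 hN2 F hF1 hF2
    have h2 : hits {a | ω ∈ A a} F N N ≠ 0 := by
      intro h9
      rw [h9] at h1
      simp only [Nat.cast_zero, zero_mul, zero_div, zero_sub, abs_neg] at h1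
      have h10 := Pool.Agent.R960.Fam.sgF_lower Q hQ F hF3
      have h11 : δ ≤ factor Q F := h10
      have h12 := le_abs_self (factor Q F)
      linarith
    have h9 : {n : ℕ | (N < n ∧ n ≤ N + N) ∧ ∀ f ∈ F, f.1 * n + f.2 ∈ {a | ω ∈ A a}}.Nonempty := by
      by_contra hne
      rw [Set.not_nonempty_iff_eq_empty] at hne
      apply h2
      unfold hits
      rw [hne, Set.ncard_empty]
    obtain ⟨n, ⟨hn1, hn2⟩, hn3⟩ := h9
    exact ⟨n, by omega, hn2, hn3⟩
  have hl2 : 0 < Real.log 2 := Real.log_pos (by norm_num)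
  refine ⟨4 + 2 * x₀ / Real.log 2 ^ (2 * k + 2), by positivity, ?_⟩
  intro F hF hF3
  set L := Real.log ((∏ f ∈ F, f.1 : ℕ) : ℝ) with hL
  have hne : F.Nonempty := by
    rw [← Finset.card_pos, hF.1]
    omega
  have hge : ∀ f ∈ F, f.1 ≤ ∏ f ∈ F, f.1 := by
    intro f hf
    refine Nat.le_of_dvd (Finset.prod_pos fun g hg => ?_) (Finset.dvd_prod_of_mem _ hf)
    have := hF.2 g hg
    omega
  have hL2 : Real.log 2 ≤ L := by
    obtain ⟨f, hf⟩ := hne
    refine Real.log_le_log (by norm_num) ?_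
    have h1 := hF.2 f hf
    have h2 := hge f hf
    exact_mod_cast (by omega : 2 ≤ ∏ f ∈ F, f.1)
  have hLk : Real.log 2 ^ (2 * k + 2) ≤ L ^ (2 * k + 2) := pow_le_pow_left₀ hl2.le hL2 _
  have hLpos : 0 < L ^ (2 * k + 2) := pow_pos (lt_of_lt_of_le hl2 hL2) _
  -- the largest coefficient
  obtain ⟨g, hg, hgmax⟩ := F.exists_max_image (fun f => f.1) hne
  by_cases hcase : x₀ ≤ g.1
  · obtain ⟨_, h2, h3⟩ := hx₀ g.1 hcase
    set N := ⌈Real.log (g.1 : ℝ) ^ (2 * k + 2)⌉₊ with hN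
    have h4 : Real.log (g.1 : ℝ) ^ (2 * k + 2) ≤ N := Nat.le_ceil _
    have h5 : (N : ℝ) < Real.log (g.1 : ℝ) ^ (2 * k + 2) + 1 := Nat.ceil_lt_add_one (by positivity)
    have h6 : N ≤ g.1 := by
      have : (N : ℝ) ≤ g.1 := by linarith
      exact_mod_cast this
    obtain ⟨n, hn1, hn2, hn3⟩ := key g.1 hcase N h6 h4 F hF (fun f hf => hgmax f hf) hF3
    refine ⟨n, hn1, ?_, hn3⟩
    have h7 : (n : ℝ) ≤ N + N := by exact_mod_cast hn2
    have h8 : 1 ≤ Real.log (g.1 : ℝ) ^ (2 * k + 2) := one_le_pow₀ h3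
    have h9 : Real.log (g.1 : ℝ) ^ (2 * k + 2) ≤ L ^ (2 * k + 2) := by
      refine pow_le_pow_left₀ (by linarith) ?_ _
      refine Real.log_le_log ?_ (by exact_mod_cast hge g hg)
      have := hF.2 g hg
      exact_mod_cast (by omega : 0 < g.1)
    have h10 : 0 ≤ 2 * x₀ / Real.log 2 ^ (2 * k + 2) * L ^ (2 * k + 2) := by positivity
    rw [add_mul]
    linarith
  · obtain ⟨_, h2, _⟩ := hx₀ x₀ le_rfl
    obtain ⟨n, hn1, hn2, hn3⟩ := key x₀ le_rfl x₀ le_rfl (by linarith) F hF (fun f hf => by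
      have := hgmax f hf
      omega) hF3
    refine ⟨n, hn1, ?_, hn3⟩
    have h7 : (n : ℝ) ≤ x₀ + x₀ := by exact_mod_cast hn2
    have h8 : (2 * x₀ : ℝ) ≤ 2 * x₀ / Real.log 2 ^ (2 * k + 2) * L ^ (2 * k + 2) := by
      rw [div_mul_eq_mul_div, le_div_iff₀ (by positivity)]
      exact mul_le_mul_of_nonneg_left hLk (by positivity)
    rw [add_mul]
    have : (0 : ℝ) ≤ 4 * L ^ (2 * k + 2) := by positivity
    linarith
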